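import Pool.Agent.U722.FF.Stm2
import Pool.Agent.U15.FFP.TRC

/-! Project FS (helper722), package VIR (helper750): subgroups of `GL_2(ℤ[x_1..x_n])` are virtually
torsion-free. -/

set_option autoImplicit false
set_option linter.style.haveILetI false

namespace Pool.Agent.U750.FSP

open U722.FF Matrix

lemma natmul {R : Type*} [CommRing R] (k : ℕ) (Y : Matrix (Fin 2) (Fin 2) R) :
    (k : Matrix (Fin 2) (Fin 2) R) * Y = (k : R) • Y := by
  rw [← nsmul_eq_mul, Nat.cast_smul_eq_nsmul]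

lemma threemul {R : Type*} [CommRing R] (Y : Matrix (Fin 2) (Fin 2) R) :
    (3 : Matrix (Fin 2) (Fin 2) R) * Y = (3 : R) • Y := by
  have := natmul 3 Y
  simpa only [Nat.cast_ofNat] using this

/-- reduction modulo `3` -/
noncomputable def red : Matrix (Fin 2) (Fin 2) ℤ →+* Matrix (Fin 2) (Fin 2) (ZMod 3) :=
  (Int.castRingHom (ZMod 3)).mapMatrix

lemma red_apply (X : Matrix (Fin 2) (Fin 2) ℤ) (i j : Fin 2) : red X i j = ((X i j : ℤ) : ZMod 3) :=
  rfl

lemma red_three (X : Matrix (Fin 2) (Fin 2) ℤ) : red (3 * X) = 0 := by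
  rw [map_mul, map_ofNat, threemul]
  have h3 : (3 : ZMod 3) = 0 := by decide
  rw [h3, zero_smul]

lemma exists_three {X : Matrix (Fin 2) (Fin 2) ℤ} (h : red X = 0) : ∃ Y, X = 3 * Y := by
  have h1 : ∀ i j, (3 : ℤ) ∣ X i j := by
    intro i j
    have := congrFun (congrFun h i) j
    rw [red_apply] at this
    exact (ZMod.intCast_zmod_eq_zero_iff_dvd (X i j) 3).1 this
  choose Y hY using h1
  refine ⟨Matrix.of Y, ?_⟩
  rw [threemul]
  ext i j
  simpa using hY i j

/-- the binomial formula up to the second order -/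
lemma binom {A : Type*} [Ring A] (x : A) (q : ℕ) : ∃ D, (1 + x) ^ q = 1 + q * x + x * x * D := by
  induction q with
  | zero => exact ⟨0, by simp⟩
  | succ q ih =>
    obtain ⟨D, hD⟩ := ih
    refine ⟨D + q + x * D, ?_⟩
    rw [pow_succ', hD]
    have h : (q : A) * x = x * q := (Nat.cast_commute q x).eq
    push_cast
    simp only [add_mul, mul_add, one_mul, mul_one, h, mul_assoc]
    abel

/-- `M = 1 + 3 ^ m C`, `C` not divisible by `3`, `m ≥ 1` -/
def QQ (M : Matrix (Fin 2) (Fin 2) ℤ) : Prop :=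
  ∃ (m : ℕ) (C : Matrix (Fin 2) (Fin 2) ℤ), M = 1 + 3 ^ (m + 1) * C ∧ red C ≠ 0

lemma three_comm (m : ℕ) (C : Matrix (Fin 2) (Fin 2) ℤ) : C * 3 ^ m = 3 ^ m * C := by
  have : Commute (3 : Matrix (Fin 2) (Fin 2) ℤ) C := Nat.cast_commute 3 C
  exact (this.pow_left m).eq.symm

lemma qq_pow {M : Matrix (Fin 2) (Fin 2) ℤ} (h : QQ M) (q : ℕ) (hq : ¬ 3 ∣ q) : QQ (M ^ q) := by
  obtain ⟨m, C, rfl, hC⟩ := h
  obtain ⟨D, hD⟩ := binom (3 ^ (m + 1) * C) q
  refine ⟨m, q * C + 3 * (3 ^ m * (C * C * D)), ?_, ?_⟩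
  · rw [hD]
    have h : (q : Matrix (Fin 2) (Fin 2) ℤ) * 3 ^ (m + 1) = 3 ^ (m + 1) * q :=
      (Nat.cast_commute q _).eq
    have h1 : 3 ^ (m + 1) * C * (3 ^ (m + 1) * C) * D =
        3 ^ (m + 1) * (3 * (3 ^ m * (C * C * D))) := by
      have : 3 ^ (m + 1) * C * (3 ^ (m + 1) * C) = 3 ^ (m + 1) * (3 ^ (m + 1) * (C * C)) := by
        rw [mul_assoc, ← mul_assoc C, three_comm, mul_assoc]
      rw [this, pow_succ' 3 m]
      simp only [mul_assoc]
    rw [h1, ← mul_assoc, h, mul_assoc, mul_add, add_assoc]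
  · rw [map_add, red_three, add_zero, map_mul, map_natCast]
    intro h0
    apply hC
    have hq' : ((q : ℕ) : ZMod 3) ≠ 0 := by
      intro h
      exact hq ((ZMod.natCast_eq_zero_iff q 3).1 h)
    rw [natmul] at h0
    rcases smul_eq_zero.1 h0 with h | h
    · exact absurd h hq'
    · exact h

lemma qq_three {M : Matrix (Fin 2) (Fin 2) ℤ} (h : QQ M) : QQ (M ^ 3) := by
  obtain ⟨m, C, rfl, hC⟩ := h
  refine ⟨m + 1, C + 3 * (3 ^ m * (C * C)) + 3 * (3 ^ (2 * m) * (C * C * C)), ?_, ?_⟩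
  · have e : ∀ x : Matrix (Fin 2) (Fin 2) ℤ, (1 + x) ^ 3 = 1 + 3 * x + 3 * (x * x) + x * x * x := by
      intro x
      noncomm_ring
    rw [e]
    have h1 : 3 ^ (m + 1) * C * (3 ^ (m + 1) * C) = 3 ^ (2 * m + 2) * (C * C) := by
      rw [mul_assoc, ← mul_assoc C, three_comm, mul_assoc, ← mul_assoc, ← pow_add]
      congr 2
      omega
    have h2 : 3 ^ (m + 1) * C * (3 ^ (m + 1) * C) * (3 ^ (m + 1) * C) =
        3 ^ (3 * m + 3) * (C * C * C) := by
      rw [h1, mul_assoc, ← mul_assoc (C * C), three_comm, mul_assoc, ← mul_assoc, ← pow_add]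
      congr 2
      omega
    rw [h2, h1]
    have p1 : (3 : Matrix (Fin 2) (Fin 2) ℤ) ^ (m + 1 + 1) = 3 * 3 ^ (m + 1) := pow_succ' _ _
    have p2 : 3 * ((3 : Matrix (Fin 2) (Fin 2) ℤ) ^ (2 * m + 2) * (C * C)) =
        3 ^ (m + 1 + 1) * (3 * (3 ^ m * (C * C))) := by
      simp only [← mul_assoc, ← pow_succ', ← pow_add]
      congr 3
      omega
    have p3 : (3 : Matrix (Fin 2) (Fin 2) ℤ) ^ (3 * m + 3) * (C * C * C) =
        3 ^ (m + 1 + 1) * (3 * (3 ^ (2 * m) * (C * C * C))) := by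
      simp only [← mul_assoc, ← pow_succ', ← pow_add]
      congr 4
      omega
    rw [p2, p3, p1, mul_add, mul_add, ← mul_assoc, ← p1]
    abel
  · rw [map_add, map_add, red_three, red_three, add_zero, add_zero]
    exact hC

lemma qq_all {M : Matrix (Fin 2) (Fin 2) ℤ} (h : QQ M) (k : ℕ) (hk : 0 < k) : QQ (M ^ k) := by
  obtain ⟨v, q, hq, rfl⟩ := Nat.exists_eq_pow_mul_and_not_dvd hk.ne' 3 (by norm_num)
  rw [pow_mul]
  refine qq_pow ?_ q hq
  clear hk
  induction v with
  | zero => simpa using h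
  | succ v ih => rw [pow_succ, pow_mul]; exact qq_three ih

lemma qq_ne {M : Matrix (Fin 2) (Fin 2) ℤ} (h : QQ M) : M ≠ 1 := by
  obtain ⟨m, C, rfl, hC⟩ := h
  intro h0
  have h1 : (3 : Matrix (Fin 2) (Fin 2) ℤ) ^ (m + 1) * C = 0 := by simpa using h0
  have h2 : (3 : Matrix (Fin 2) (Fin 2) ℤ) ^ (m + 1) = ((3 ^ (m + 1) : ℕ) : Matrix _ _ ℤ) := by
    push_cast
    rfl
  rw [h2, natmul] at h1
  rcases smul_eq_zero.1 h1 with h | h
  · exact absurd h (by positivity)
  · apply hC
    rw [h, map_zero]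

lemma exists_val (b : ℕ) : ∀ X : Matrix (Fin 2) (Fin 2) ℤ, (∀ i j, |X i j| < 3 ^ b) → X ≠ 0 →
    ∃ (m : ℕ) (C : Matrix (Fin 2) (Fin 2) ℤ), X = 3 ^ m * C ∧ red C ≠ 0 := by
  induction b with
  | zero =>
    intro X hX h0
    exfalso
    apply h0
    ext i j
    have := hX i j
    simp only [pow_zero] at this
    rw [Int.abs_lt_one_iff] at this
    exact this
  | succ b ih =>
    intro X hX h0
    by_cases h : red X = 0
    · obtain ⟨Y, rfl⟩ := exists_three h
      have hY0 : Y ≠ 0 := by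
        rintro rfl
        exact h0 (mul_zero _)
      have e : ∀ i j, ((3 : Matrix (Fin 2) (Fin 2) ℤ) * Y) i j = 3 * Y i j := by
        intro i j
        rw [threemul]
        rfl
      obtain ⟨m, C, hC, hC'⟩ := ih Y (by
        intro i j
        have := hX i j
        rw [e, abs_mul, pow_succ] at this
        norm_num at this
        linarith) hY0
      exact ⟨m + 1, C, by rw [hC, pow_succ', mul_assoc], hC'⟩
    · exact ⟨0, X, by simp, h⟩

/-- Minkowski -/
lemma mink {M : Matrix (Fin 2) (Fin 2) ℤ} (h : red M = 1) (k : ℕ) (hk : 0 < k) (hM : M ^ k = 1) :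
    M = 1 := by
  by_contra h0
  have h1 : M - 1 ≠ 0 := sub_ne_zero.2 h0
  obtain ⟨m, C, hC, hC'⟩ := exists_val (∑ i, ∑ j, ((M - 1) i j).natAbs) (M - 1) (by
    intro i j
    have a1 : ((M - 1) i j).natAbs ≤ ∑ i, ∑ j, ((M - 1) i j).natAbs := by
      refine le_trans ?_ (Finset.single_le_sum (f := fun i => ∑ j, ((M - 1) i j).natAbs)
        (fun _ _ => Nat.zero_le _) (Finset.mem_univ i))
      exact Finset.single_le_sum (f := fun j => ((M - 1) i j).natAbs)
        (fun _ _ => Nat.zero_le _) (Finset.mem_univ j)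
    have a2 : ((M - 1) i j).natAbs < 3 ^ (∑ i, ∑ j, ((M - 1) i j).natAbs) :=
      lt_of_le_of_lt a1 (Nat.lt_pow_self (by norm_num))
    rw [Int.abs_eq_natAbs]
    exact_mod_cast a2) h1
  rcases m with _ | m
  · apply hC'
    rw [pow_zero, one_mul] at hC
    rw [← hC, map_sub, h, map_one, sub_self]
  · have hQ : QQ M := ⟨m, C, by rw [← hC]; abel, hC'⟩
    exact qq_ne (qq_all hQ k hk) hM

theorem t_VIR : S_VIR := by
  classical
  intro n G _ ρ hρ
  let ψ : G →* GL (Fin 2) (ZMod 3) :=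
    (GeneralLinearGroup.map (Int.castRingHom (ZMod 3))).comp ((ev0 n).comp ρ)
  have hcard : Nat.card (GL (Fin 2) (ZMod 3)) = 48 := by
    haveI : Fact (Nat.Prime 3) := ⟨by norm_num⟩
    rw [Matrix.card_GL_field]
    simp [Fin.prod_univ_two, ZMod.card]
  haveI : Finite (GL (Fin 2) (ZMod 3)) := inferInstance
  have hdvd : ψ.ker.index ∣ 48 := by
    rw [Subgroup.index_ker, ← hcard]
    exact Subgroup.card_subgroup_dvd_card _
  refine ⟨ψ.ker, MonoidHom.normal_ker ψ, fun h => ?_, hdvd, ?_⟩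
  · rw [h] at hdvd
    omega
  rintro ⟨g, hg⟩ k hk hgk
  have hgk' : g ^ k = 1 := congrArg Subtype.val hgk
  apply Subtype.ext
  show g = 1
  set A := ρ g with hA
  have hAk : A ^ k = 1 := by rw [hA, ← map_pow, hgk', map_one]
  -- the value at the origin
  have hB : (ev0 n A).1 = 1 := by
    refine mink ?_ k hk ?_
    · have := congrArg Units.val (MonoidHom.mem_ker.1 hg)
      exact this
    · have := congrArg Units.val (congrArg (ev0 n) hAk)
      rw [map_pow, map_one] at this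
      simpa using this
  -- bounded powers
  obtain ⟨τ, hτ⟩ := Pool.Agent.U15.FFP.t_TRC n
    ((Finset.range k).sup fun r => Finset.univ.sup fun i => Finset.univ.sup fun j =>
      ((A ^ r).1 i j).totalDegree) A (by
      intro m i j
      have h1 : A ^ m = A ^ (m % k) := by
        conv_lhs => rw [← Nat.div_add_mod m k, pow_add, pow_mul, hAk, one_pow, one_mul]
      rw [h1]
      refine le_trans ?_ (Finset.le_sup (f := fun r => Finset.univ.sup fun i =>
        Finset.univ.sup fun j => ((A ^ r).1 i j).totalDegree)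
        (Finset.mem_range.2 (Nat.mod_lt m hk)))
      refine le_trans ?_ (Finset.le_sup (f := fun i => Finset.univ.sup fun j =>
        ((A ^ (m % k)).1 i j).totalDegree) (Finset.mem_univ i))
      exact Finset.le_sup (f := fun j => ((A ^ (m % k)).1 i j).totalDegree) (Finset.mem_univ j))
  have hev : ∀ i j, MvPolynomial.eval (fun _ => (0 : ℤ)) (A.1 i j) = (1 : Matrix (Fin 2) (Fin 2) ℤ) i j :=
    fun i j => congrFun (congrFun hB i) j
  have hτ2 : A.1.trace = 2 := by
    have h1 := congrArg (MvPolynomial.eval (fun _ => (0 : ℤ))) hτ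
    rw [Matrix.trace_fin_two, map_add, hev, hev, MvPolynomial.eval_C] at h1
    simp only [Matrix.one_apply_eq] at h1
    rw [hτ, ← h1]
    norm_num
  have hdet : A.1.det = 1 := by
    have h1 : IsUnit A.1.det := (Matrix.isUnit_iff_isUnit_det A.1).1 A.isUnit
    have h2 := (MvPolynomial.isUnit_iff_totalDegree_of_isReduced.1 h1).2
    have h3 := MvPolynomial.totalDegree_eq_zero_iff_eq_C.1 h2
    have h5 : MvPolynomial.eval (fun _ => (0 : ℤ)) A.1.det = 1 := by
      rw [Matrix.det_fin_two, map_sub, map_mul, map_mul, hev, hev, hev, hev]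
      simp
    have h4 := congrArg (MvPolynomial.eval (fun _ => (0 : ℤ))) h3
    rw [MvPolynomial.eval_C, h5] at h4
    exact h3.trans (by rw [← h4, map_one])
  have hsq : (A.1 - 1) * (A.1 - 1) = 0 := by
    rw [Matrix.trace_fin_two] at hτ2
    rw [Matrix.det_fin_two] at hdet
    ext1 i j
    fin_cases i <;> fin_cases j <;>
      simp only [Matrix.mul_apply, Fin.sum_univ_two, Matrix.sub_apply, Matrix.one_apply,
        Matrix.zero_apply, Fin.isValue, Fin.zero_eta, Fin.mk_one, if_true, one_ne_zero,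
        zero_ne_one, if_false, sub_zero]
    · linear_combination (A.1 0 0) * hτ2 - hdet
    · linear_combination (A.1 0 1) * hτ2
    · linear_combination (A.1 1 0) * hτ2
    · linear_combination (A.1 1 1) * hτ2 - hdet
  obtain ⟨D, hD⟩ := binom (A.1 - 1) k
  rw [hsq, zero_mul, add_zero] at hD
  have hAk' : A.1 ^ k = 1 := by
    have := congrArg Units.val hAk
    simpa using this
  have h5 : (k : Matrix (Fin 2) (Fin 2) (MvPolynomial (Fin n) ℤ)) * (A.1 - 1) = 0 := by
    have h6 : (1 : Matrix (Fin 2) (Fin 2) (MvPolynomial (Fin n) ℤ)) + (A.1 - 1) = A.1 := by abel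
    rw [h6, hAk'] at hD
    have := hD.symm
    simpa using this
  have h7 : A.1 - 1 = 0 := by
    rw [natmul] at h5
    rcases smul_eq_zero.1 h5 with h | h
    · exfalso
      have : k = 0 := by exact_mod_cast h
      omega
    · exact h
  have h8 : A = 1 := Units.ext (sub_eq_zero.1 h7)
  apply hρ
  rw [map_one, ← hA, h8]

end Pool.Agent.U750.FSP
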